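import Mathlib

set_option autoImplicit false

namespace Pool.Agent.Lib.MP_b07792_co.Old.MinDegree

open SimpleGraph

/-- A walk avoiding a separating vertex `p` stays on one side of it. -/
theorem side {n : ℕ} (G : SimpleGraph (Fin n)) (p : ℕ)
    (hsep : ∀ x y : Fin n, G.Adj x y → x.val < p → ¬ p < y.val)
    {a b : Fin n} (w : G.Walk a b) (hp : ∀ x ∈ w.support, x.val ≠ p) :
    ∀ x ∈ w.support, (x.val < p ↔ a.val < p) := by
  induction w with
  | nil => intro x hx; simp at hx; rw [hx]
  | @cons a c b h w ih =>
    intro x hx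
    have ha : a.val ≠ p := hp a (by simp)
    have hc : c.val ≠ p := hp c (by simp)
    have h1 := hsep a c h
    have h2 := hsep c a h.symm
    rw [Walk.support_cons, List.mem_cons] at hx
    rcases hx with rfl | hx
    · rfl
    · have := ih (fun y hy => hp y (by simp [hy])) x hx
      omega

/-- A cycle lies on one side of a separating vertex. -/
theorem cycle_side {n : ℕ} (G : SimpleGraph (Fin n)) (p : ℕ)
    (hsep : ∀ x y : Fin n, G.Adj x y → x.val < p → ¬ p < y.val)
    {u : Fin n} (c : G.Walk u u) (hc : c.IsCycle) :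
    (∀ x ∈ c.support, x.val ≤ p) ∨ (∀ x ∈ c.support, p ≤ x.val) := by
  classical
  by_cases hp : ∃ z ∈ c.support, z.val = p
  · obtain ⟨z, hz, hzp⟩ := hp
    have hc' : (c.rotate z hz).IsCycle := hc.rotate hz
    have hs : ∀ x, x ∈ c.support → x ∈ (c.rotate z hz).support := fun x hx => by
      simpa using hx
    generalize c.rotate z hz = d at hc' hs
    cases d with
    | nil => exact absurd hc' (by simp)
    | @cons _ a _ h w =>
      have hw : w.reverse.IsPath := ((Walk.cons_isCycle_iff w h).1 hc').1.reverse
      have hs2 : ∀ x, x ∈ c.support → x = z ∨ x ∈ w.reverse.support := fun x hx => by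
        have := hs x hx
        simpa using this
      generalize w.reverse = w' at hw hs2
      cases w' with
      | nil => exact absurd h (G.loopless.irrefl _)
      | @cons _ e _ h' w'' =>
        have hz' : z ∉ w''.support := ((Walk.cons_isPath_iff h' w'').1 hw).2
        have hne : ∀ x ∈ w''.support, x.val ≠ p := fun x hx hxp =>
          hz' (by have : x = z := Fin.ext (by omega); rwa [← this])
        have hsd := side G p hsep w'' hne
        have hs3 : ∀ x, x ∈ c.support → x = z ∨ x ∈ w''.support := fun x hx => by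
          rcases hs2 x hx with h1 | h1
          · exact Or.inl h1
          · simpa using h1
        by_cases he : e.val < p
        · left
          intro x hx
          rcases hs3 x hx with rfl | h1
          · omega
          · have := hsd x h1; omega
        · right
          intro x hx
          rcases hs3 x hx with rfl | h1
          · omega
          · have := hsd x h1; omega
  · have hne : ∀ x ∈ c.support, x.val ≠ p := fun x hx h => hp ⟨x, hx, h⟩
    have hsd := side G p hsep c hne
    by_cases hu : u.val < p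
    · left; intro x hx; have := hsd x hx; omega
    · right; intro x hx; have := hsd x hx; omega

/-- The number of distinct vertices of a cycle is its length. -/
theorem card_support {n : ℕ} {G : SimpleGraph (Fin n)} {u : Fin n} (c : G.Walk u u)
    (hc : c.IsCycle) : c.length ≤ c.support.toFinset.card := by
  have h1 : c.support.tail.toFinset.card = c.length := by
    rw [List.toFinset_card_of_nodup hc.support_nodup, List.length_tail, Walk.length_support]
    simp
  rw [← h1]
  exact Finset.card_le_card fun x hx => by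
    simp only [List.mem_toFinset] at hx ⊢
    exact List.mem_of_mem_tail hx

/-- Two cliques of size `(n + 1) / 2` that share a vertex (`n` odd) or are joined by a
bridge (`n` even). -/
def twoCliques (n : ℕ) : SimpleGraph (Fin n) where
  Adj x y := x ≠ y ∧ ((x.val ≤ (n - 1) / 2 ∧ y.val ≤ (n - 1) / 2) ∨
    (n / 2 ≤ x.val ∧ n / 2 ≤ y.val) ∨
    ((n - 1) / 2 ≤ x.val ∧ x.val ≤ n / 2 ∧ (n - 1) / 2 ≤ y.val ∧ y.val ≤ n / 2))
  symm := ⟨fun x y h => ⟨h.1.symm, by have := h.2; omega⟩⟩
  loopless := ⟨fun x h => h.1 rfl⟩

theorem card_low (n : ℕ) (hn : 1 ≤ n) :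
    (Finset.univ.filter fun x : Fin n => x.val ≤ (n - 1) / 2).card = (n + 1) / 2 := by
  have : (Finset.univ.filter fun x : Fin n => x.val ≤ (n - 1) / 2) =
      Finset.Iic (⟨(n - 1) / 2, by omega⟩ : Fin n) := by
    ext x; simp [Fin.le_def]
  rw [this, Fin.card_Iic]; simp; omega

theorem card_high (n : ℕ) (hn : 1 ≤ n) :
    (Finset.univ.filter fun x : Fin n => n / 2 ≤ x.val).card = (n + 1) / 2 := by
  have : (Finset.univ.filter fun x : Fin n => n / 2 ≤ x.val) =
      Finset.Ici (⟨n / 2, by omega⟩ : Fin n) := by
    ext x; simp [Fin.le_def]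
  rw [this, Fin.card_Ici]; simp; omega

theorem connected (n : ℕ) (hn : 1 ≤ n) : (twoCliques n).Connected := by
  have key : ∀ x y : Fin n, (x ≠ y → (twoCliques n).Adj x y) → (twoCliques n).Reachable x y :=
    fun x y h => by
      by_cases hxy : x = y
      · rw [hxy]
      · exact (h hxy).reachable
  let p : Fin n := ⟨(n - 1) / 2, by omega⟩
  let q : Fin n := ⟨n / 2, by omega⟩
  have hpq : (twoCliques n).Reachable q p :=
    key q p fun h => ⟨h, by simp only [p, q]; omega⟩
  have hall : ∀ x : Fin n, (twoCliques n).Reachable x p := fun x => by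
    by_cases hx : x.val ≤ (n - 1) / 2
    · exact key x p fun h => ⟨h, by simp only [p]; omega⟩
    · exact (key x q fun h => ⟨h, by simp only [q]; omega⟩).trans hpq
  have : Nonempty (Fin n) := ⟨p⟩
  exact ⟨fun x y => (hall x).trans (hall y).symm⟩

theorem degree_ge (n : ℕ) (v : Fin n) :
    (n - 1) / 2 ≤ ((twoCliques n).neighborSet v).ncard := by
  classical
  have hn : 1 ≤ n := by have := v.2; omega
  have key : ∀ S : Finset (Fin n), S.card = (n + 1) / 2 → v ∈ S →
      (∀ y ∈ S, v ≠ y → (twoCliques n).Adj v y) →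
      (n - 1) / 2 ≤ ((twoCliques n).neighborSet v).ncard := fun S hS hv h => by
    have h1 : (S.erase v).card = (n - 1) / 2 := by
      rw [Finset.card_erase_of_mem hv, hS]; omega
    rw [← h1, ← Set.ncard_coe_finset]
    refine Set.ncard_le_ncard (fun y hy => ?_) (Set.toFinite _)
    simp only [Finset.coe_erase, Set.mem_sdiff, Finset.mem_coe, Set.mem_singleton_iff] at hy
    exact h y hy.1 (Ne.symm hy.2)
  by_cases hv : v.val ≤ (n - 1) / 2
  · refine key _ (card_low n hn) (by simpa using hv) fun y hy hne => ⟨hne, Or.inl ⟨hv, ?_⟩⟩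
    simpa using hy
  · refine key _ (card_high n hn) (by simp; omega) fun y hy hne =>
      ⟨hne, Or.inr (Or.inl ⟨by omega, ?_⟩)⟩
    simpa using hy

theorem cycle_in (n : ℕ) {u : Fin n} (c : (twoCliques n).Walk u u) (hc : c.IsCycle) :
    (∀ x ∈ c.support, x.val ≤ (n - 1) / 2) ∨ (∀ x ∈ c.support, n / 2 ≤ x.val) := by
  classical
  rcases cycle_side (twoCliques n) ((n - 1) / 2) (fun x y h => by have := h.2; omega) c hc with
    h1 | h1
  · exact Or.inl h1
  rcases cycle_side (twoCliques n) (n / 2) (fun x y h => by have := h.2; omega) c hc with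
    h2 | h2
  · exfalso
    have hn : 1 ≤ n := by have := u.2; omega
    have h3 := hc.three_le_length
    have h4 := card_support c hc
    have h5 : c.support.toFinset ⊆
        {(⟨(n - 1) / 2, by omega⟩ : Fin n), (⟨n / 2, by omega⟩ : Fin n)} := fun x hx => by
      have a1 := h1 x (by simpa using hx)
      have a2 := h2 x (by simpa using hx)
      simp only [Finset.mem_insert, Finset.mem_singleton, Fin.ext_iff]
      omega
    have h6 := (Finset.card_le_card h5).trans Finset.card_le_two
    omega
  · exact Or.inr h2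

theorem pack {n k r : ℕ} {G : SimpleGraph (Fin n)} (u : Fin k → Fin n)
    (c : ∀ i, G.Walk (u i) (u i)) (hc : ∀ i, (c i).IsCycle ∧ r ≤ (c i).length)
    (hd : ∀ i j, i ≠ j → ∀ v, v ∈ (c i).support → v ∉ (c j).support)
    (I : Finset (Fin k)) (S : Finset (Fin n)) (hS : ∀ i ∈ I, ∀ x ∈ (c i).support, x ∈ S) :
    I.card * r ≤ S.card := by
  classical
  have h1 : (I.biUnion fun i => (c i).support.toFinset).card =
      ∑ i ∈ I, (c i).support.toFinset.card :=
    Finset.card_biUnion fun i _ j _ hij => by
      simp only [Function.onFun]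
      rw [Finset.disjoint_left]
      intro x hx hx'
      exact hd i j hij x (by simpa using hx) (by simpa using hx')
  have h2 : (I.biUnion fun i => (c i).support.toFinset) ⊆ S := fun x hx => by
    simp only [Finset.mem_biUnion, List.mem_toFinset] at hx
    obtain ⟨i, hi, hx⟩ := hx
    exact hS i hi x hx
  calc I.card * r = ∑ _i ∈ I, r := by simp
    _ ≤ ∑ i ∈ I, (c i).support.toFinset.card :=
        Finset.sum_le_sum fun i _ => (hc i).2.trans (card_support _ (hc i).1)
    _ ≤ S.card := h1 ▸ Finset.card_le_card h2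

/-- The minimum-degree statement fails for all odd `k ≥ 3` and odd `r ≥ k + 4`, for every order
`n` with `(r + 1) k < n ≤ r (k + 1) - 2`, and by connected graphs. -/
theorem result :
    ∀ (k r : ℕ), 3 ≤ k → Odd k → Odd r → k + 4 ≤ r →
      (r + 1) * k + 1 ≤ r * (k + 1) - 2 ∧
      ∀ n : ℕ, (r + 1) * k + 1 ≤ n → n ≤ r * (k + 1) - 2 →
        ∃ G : SimpleGraph (Fin n), G.Connected ∧ r * k ≤ n ∧
          (∀ v, (r + 1) * k ≤ 2 * (G.neighborSet v).ncard ∧
            (n - 1) / 2 ≤ (G.neighborSet v).ncard) ∧
          ¬ ∃ (u : Fin k → Fin n) (c : ∀ i, G.Walk (u i) (u i)),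
            (∀ i, (c i).IsCycle ∧ r ≤ (c i).length) ∧
            ∀ i j, i ≠ j → ∀ v, v ∈ (c i).support → v ∉ (c j).support := by
  classical
  intro k r hk ⟨j, hj⟩ ⟨d, hd⟩ hkr
  have e1 : (r + 1) * k = r * k + k := by ring
  have e2 : r * (k + 1) = r * k + r := by ring
  have e3 : (r + 1) * k = 2 * ((d + 1) * k) := by rw [hd]; ring
  have e4 : r * (k + 1) = 2 * ((j + 1) * r) := by rw [hj]; ring
  refine ⟨by omega, fun n h1 h2 => ?_⟩
  have hn : 1 ≤ n := by omega
  refine ⟨twoCliques n, connected n hn, by omega, fun v => ?_, ?_⟩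
  · have := degree_ge n v
    omega
  · rintro ⟨u, c, hc, hdis⟩
    let I : Finset (Fin k) := Finset.univ.filter fun i => ∀ x ∈ (c i).support, x.val ≤ (n - 1) / 2
    have a1 := pack u c hc hdis I _ (fun i hi x hx => by
      have := (Finset.mem_filter.1 hi).2 x hx
      exact (Finset.mem_filter (p := fun x : Fin n => x.val ≤ (n - 1) / 2)).2
        ⟨Finset.mem_univ x, this⟩)
    have a2 := pack u c hc hdis Iᶜ _ (fun i hi x hx => by
      have h3 : ¬ ∀ x ∈ (c i).support, x.val ≤ (n - 1) / 2 := by simpa [I] using hi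
      have := ((cycle_in n (c i) (hc i).1).resolve_left h3) x hx
      exact (Finset.mem_filter (p := fun x : Fin n => n / 2 ≤ x.val)).2
        ⟨Finset.mem_univ x, this⟩)
    rw [card_low n hn] at a1
    rw [card_high n hn] at a2
    have a3 : I.card + Iᶜ.card = k := by simp
    rcases (by omega : j + 1 ≤ I.card ∨ j + 1 ≤ Iᶜ.card) with h | h
    · have := Nat.mul_le_mul_right r h
      omega
    · have := Nat.mul_le_mul_right r h
      omega

end Pool.Agent.Lib.MP_b07792_co.Old.MinDegree
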